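import Pool.Agent.Lib.MP_b5021c_nt.IfaceAM
import Pool.Agent.Lib.MP_b5021c_nt.E.H07.Mxu

/-!
# MP_b5021c_nt, board b5, stage 3, chapter AM, row AM_UNI: unimodularity (helper33)
-/

set_option linter.unusedSectionVars false

namespace Pool.Agent.B5.H33

open Pool.Agent.B5 Pool.Agent.B5.H63 Pool.Agent.B5.H07
open scoped LaurentPolynomial

theorem uniK (hI : IrrKS) : UniKS := by
  intro O _ _ _ _ P L _ _ _ _ _ phi D S eta θ T hM h2 hS hV hN hT hr
  have hK : Module.finrank ℤ (LamS eta S D ⊔ Submodule.span ℤ T : Submodule ℤ L) =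
      Module.finrank ℤ L := by
    refine le_antisymm (Submodule.finrank_le _) ?_
    rw [← hr, ← finrank_satur (LamS eta S D ⊔ Submodule.span ℤ T)]
    refine Submodule.finrank_mono (sup_le ?_ ?_)
    · exact satur_mono le_sup_left
    · exact le_sup_right.trans (le_satur _)
  set K : Submodule ℤ L := LamS eta S D ⊔ Submodule.span ℤ T with hKdef
  have hDD : DD (phi.comp (incl K)) (res K D) :=
    hI O P L phi D S eta θ T K hM.fp.dd h2 hS hV hN hM.cls hT hKdef hK
  have hm := hM.min P K (phi.comp (incl K)) (res K D) hDD hK (by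
    rw [res_coeff]
    exact hM.cls)
  have hfin : (supp D).Finite := by
    have : supp D = (D.coeff.support : Set L) := by
      ext a
      simp [supp]
    rw [this]
    exact Finset.finite_toSet _
  have him : (fun a : K => (a : L)) '' supp (res K D) = supp D ∩ (K : Set L) := by
    ext a
    constructor
    · rintro ⟨b, hb, rfl⟩
      exact ⟨hb, b.2⟩
    · rintro ⟨ha, hb⟩
      exact ⟨⟨a, hb⟩, ha, rfl⟩
  have hc : (supp (res K D)).ncard = (supp D ∩ (K : Set L)).ncard := by
    rw [← him]
    exact (Set.ncard_image_of_injective _ Subtype.val_injective).symm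
  rw [hc] at hm
  have he : supp D ∩ (K : Set L) = supp D :=
    Set.eq_of_subset_of_ncard_le Set.inter_subset_left hm hfin
  rw [eq_top_iff, ← hM.top, Submodule.span_le]
  intro a ha
  rw [← he] at ha
  exact ha.2

end Pool.Agent.B5.H33
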